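import Pool.Agent.N566.VV.Defs

/-!
Project VV (helper566), part 13: the value of a ring. Lean proof: helper768.
-/

set_option autoImplicit false

namespace Pool.Agent.N768.VV

open Pool.Agent.N566.VV Pool.Agent.H835R2.Knot
open Pool.Agent.H550R3.Jones (br brf Adm crossP crossN gen rep tail Gen)
open Finset

section
variable {ι : Type} [Fintype ι] [DecidableEq ι]

/-- the labels of the strands `0, 1, 2` -/
def lab (σ : ℕ → ι) : Fin 3 → ι := fun j => σ j

/-- change the labels of the strands `0, 1, 2` -/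
def upd (σ : ℕ → ι) (t : Fin 3 → ι) : ℕ → ι := fun p => if h : p < 3 then t ⟨p, h⟩ else σ p

omit [Fintype ι] [DecidableEq ι] in
theorem lab_upd (σ : ℕ → ι) (t : Fin 3 → ι) : lab (upd σ t) = t := by
  funext j
  unfold lab upd
  rw [dif_pos j.2]

omit [Fintype ι] [DecidableEq ι] in
theorem upd_upd (σ : ℕ → ι) (t t' : Fin 3 → ι) : upd (upd σ t) t' = upd σ t' := by
  funext p
  unfold upd
  by_cases h : p < 3
  · rw [dif_pos h, dif_pos h]
  · rw [dif_neg h, dif_neg h, dif_neg h]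

omit [Fintype ι] [DecidableEq ι] in
theorem upd_lab (σ : ℕ → ι) : upd σ (lab σ) = σ := by
  funext p
  unfold upd lab
  by_cases h : p < 3
  · rw [dif_pos h]
  · rw [dif_neg h]

/-- the operator of a matrix on three strands -/
def Op (M : Matrix (Fin 3 → ι) (Fin 3 → ι) ℂ) (f : F ι) : F ι :=
  fun σ => ∑ t, M (lab σ) t * f (upd σ t)

omit [DecidableEq ι] in
theorem Op_mul (M M' : Matrix (Fin 3 → ι) (Fin 3 → ι) ℂ) (f : F ι) :
    Op (M * M') f = Op M (Op M' f) := by
  funext σ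
  unfold Op
  simp only [lab_upd, upd_upd, Matrix.mul_apply, Finset.sum_mul, Finset.mul_sum, mul_assoc]
  rw [Finset.sum_comm]

theorem Op_one (f : F ι) : Op 1 f = f := by
  funext σ
  unfold Op
  rw [Finset.sum_eq_single (lab σ)]
  · rw [Matrix.one_apply_eq, one_mul, upd_lab]
  · intro t _ ht
    rw [Matrix.one_apply_ne (Ne.symm ht), zero_mul]
  · intro h
    exact absurd (Finset.mem_univ _) h

omit [DecidableEq ι] in
theorem Op_smul (c : ℂ) (M : Matrix (Fin 3 → ι) (Fin 3 → ι) ℂ) (f : F ι) :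
    Op M (c • f) = c • Op M f := by
  funext σ
  unfold Op
  rw [Pi.smul_apply, smul_eq_mul, Finset.mul_sum]
  refine Finset.sum_congr rfl fun t _ => ?_
  rw [Pi.smul_apply, smul_eq_mul]
  ring

omit [DecidableEq ι] in
theorem Xl_smul (c : ℂ) (A : Matrix (ι × ι) (ι × ι) ℂ) (i : ℕ) (f : F ι) :
    Xl (c • A) i f = c • Xl A i f := by
  funext σ
  unfold Xl
  rw [Pi.smul_apply, smul_eq_mul, Finset.mul_sum]
  refine Finset.sum_congr rfl fun t _ => ?_
  rw [Matrix.smul_apply, smul_eq_mul, mul_assoc]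

theorem Op_gen (A : Matrix (ι × ι) (ι × ι) ℂ) (k : ℕ) (hk : k + 1 < 3) (f : F ι) :
    Op (gen A 3 k) f = Xl A k f := by
  funext σ
  unfold Op Xl
  symm
  refine Fintype.sum_of_injective (fun (p : ι × ι) (j : Fin 3) =>
    if (j : ℕ) = k then p.1 else if (j : ℕ) = k + 1 then p.2 else σ j) ?_ _ _ ?_ ?_
  · intro p q hpq
    have h1 := congrFun hpq ⟨k, by omega⟩
    have h2 := congrFun hpq ⟨k + 1, hk⟩
    simp only [if_true] at h1
    simp only [if_true, Nat.succ_ne_self, if_false] at h2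
    exact Prod.ext h1 h2
  · intro t ht
    unfold gen
    rw [dif_pos hk, if_neg, zero_mul]
    intro hcon
    apply ht
    refine ⟨(t ⟨k, by omega⟩, t ⟨k + 1, hk⟩), ?_⟩
    funext j
    beta_reduce
    by_cases h1 : (j : ℕ) = k
    · rw [if_pos h1]
      exact congrArg t (Fin.ext h1.symm)
    · rw [if_neg h1]
      by_cases h2 : (j : ℕ) = k + 1
      · rw [if_pos h2]
        exact congrArg t (Fin.ext h2.symm)
      · rw [if_neg h2]
        exact hcon j h1 h2
  · intro p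
    have h1 : upd σ (fun (j : Fin 3) => if (j : ℕ) = k then p.1 else
        if (j : ℕ) = k + 1 then p.2 else σ j) = updS k p.1 p.2 σ := by
      funext q
      unfold upd updS
      by_cases h : q < 3
      · rw [dif_pos h]
      · rw [dif_neg h, if_neg (by omega), if_neg (by omega)]
    rw [h1]
    congr 1
    unfold gen
    rw [dif_pos hk, if_pos]
    · have h2 : (k + 1 = k) = False := by simp
      simp only [if_true, h2, if_false]
      rfl
    · intro j hj1 hj2
      beta_reduce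
      rw [if_neg hj1, if_neg hj2]
      rfl

theorem opD_append (T : Dat ι) (w w' : Word) (A : Front) (f : F ι) :
    opD T (w ++ w') A f = opD T w A (opD T w' (run w A) f) := by
  induction w generalizing A with
  | nil => rfl
  | cons p w ih =>
    show opP T p A.dir (opD T (w ++ w') (p.act A) f) = _
    rw [ih]
    rfl

end

/-! ### the middle -/

theorem op_letter (N : ℕ) (d : ℕ → Bool) (g : ℕ × Bool) : ∃ e : ℤ, ∀ v : ℂ, v ≠ 0 →
    ∀ f : F (Fin N), opP (datJ N v) (letW g) d f =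
      v ^ e • Xl (if g.2 then crossP N v else crossN N v) g.1 f := by
  obtain ⟨i, b⟩ := g
  cases b with
  | true =>
    refine ⟨(if d i = d (i + 1) then -fr N else fr N) + fr N, fun v hv f => ?_⟩
    show (if d i = d (i + 1) then v ^ (-fr N) else v ^ fr N) • Xl (v ^ fr N • crossP N v) i f = _
    rw [Xl_smul, smul_smul, zpow_add₀ hv]
    simp only [if_true]
    congr 2
    split_ifs <;> rfl
  | false =>
    refine ⟨(if d i = d (i + 1) then fr N else -fr N) + (-fr N), fun v hv f => ?_⟩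
    show (if d i = d (i + 1) then v ^ fr N else v ^ (-fr N)) • Xl (v ^ (-fr N) • crossN N v) i f = _
    rw [Xl_smul, smul_smul, zpow_add₀ hv]
    simp only [Bool.false_eq_true, if_false]
    congr 2
    split_ifs <;> rfl

theorem plain_letW {p : Piece} {g : ℕ × Bool} (h : plain p = letW g) : p = letW g := by
  obtain ⟨i, b⟩ := g
  cases p <;> cases b <;> simp_all [plain, letW]

theorem mid1 (N : ℕ) (w : List (ℕ × Bool)) : (∀ g ∈ w, g.1 + 1 < 3) →
    ∀ (D : Word) (A : Front), D.map plain = w.map letW →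
    ∃ e : ℤ, ∀ v : ℂ, Adm N v → ∀ f : F (Fin N),
      opD (datJ N v) D A f = v ^ e • Op (rep (crossP N v) (crossN N v) 3 w) f := by
  induction w with
  | nil =>
    intro _ D A hD
    rw [List.map_nil, List.map_eq_nil_iff] at hD
    subst hD
    refine ⟨0, fun v _ f => ?_⟩
    have h1 : rep (crossP N v) (crossN N v) 3 [] = 1 := rfl
    rw [h1, Op_one, zpow_zero, one_smul]
    rfl
  | cons g w ih =>
    intro hw D A hD
    rcases D with _ | ⟨p, D⟩
    · simp at hD
    rw [List.map_cons, List.map_cons, List.cons.injEq] at hD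
    have hp := plain_letW hD.1
    subst hp
    obtain ⟨e1, he1⟩ := op_letter N A.dir g
    obtain ⟨e2, he2⟩ := ih (fun g hg => hw g (List.mem_cons_of_mem _ hg)) D _ hD.2
    refine ⟨e1 + e2, fun v hv f => ?_⟩
    show opP (datJ N v) (letW g) A.dir (opD (datJ N v) D ((letW g).act A) f) = _
    rw [he2 v hv, he1 v hv.1]
    have h1 : rep (crossP N v) (crossN N v) 3 (g :: w) =
        gen (if g.2 then crossP N v else crossN N v) 3 g.1 * rep (crossP N v) (crossN N v) 3 w := by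
      unfold rep
      rw [List.map_cons, List.prod_cons]
    rw [h1, Op_mul, ← Op_gen _ _ (hw g List.mem_cons_self), Op_smul, smul_smul, zpow_add₀ hv.1]

theorem mid2 (h : S_TW) (N : ℕ) (hN : Odd N) (ts : List (Tr × Tr)) :
    ∀ (D : Word) (A : Front),
    D.map plain = (ts.map fun p => tangleW 0 p.1 ++ tangleW 1 p.2).flatten →
    ∃ e : ℤ, ∀ v : ℂ, Adm N v → ∀ f : F (Fin N),
      opD (datJ N v) D A f = v ^ e • Op ((ts.map fun p =>
        gen (tangle N v p.1) 3 0 * gen (tangle N v p.2) 3 1).prod) f := by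
  induction ts with
  | nil =>
    intro D A hD
    rw [List.map_nil, List.flatten_nil, List.map_eq_nil_iff] at hD
    subst hD
    refine ⟨0, fun v _ f => ?_⟩
    rw [List.map_nil, List.prod_nil, Op_one, zpow_zero, one_smul]
    rfl
  | cons p ts ih =>
    intro D A hD
    rw [List.map_cons, List.flatten_cons, List.map_eq_append_iff] at hD
    obtain ⟨D12, D3, rfl, hD12, hD3⟩ := hD
    rw [List.map_eq_append_iff] at hD12
    obtain ⟨D1, D2, rfl, hD1, hD2⟩ := hD12
    obtain ⟨e1, he1⟩ := h N hN p.1 0 D1 A hD1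
    obtain ⟨e2, he2⟩ := h N hN p.2 1 D2 (run D1 A) hD2
    obtain ⟨e3, he3⟩ := ih D3 (run (D1 ++ D2) A) hD3
    refine ⟨e1 + e2 + e3, fun v hv f => ?_⟩
    rw [opD_append, opD_append, he3 v hv, he2 v hv, he1 v hv, List.map_cons, List.prod_cons,
      Op_mul, Op_mul, ← Op_gen _ 0 (by norm_num), ← Op_gen _ 1 (by norm_num), Op_smul, Op_smul,
      Op_smul, smul_smul, smul_smul, zpow_add₀ hv.1, zpow_add₀ hv.1]

theorem fullTwists_lt (m : ℤ) : ∀ g ∈ fullTwists m, g.1 + 1 < 3 := by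
  intro g hg
  unfold fullTwists at hg
  rw [List.mem_flatten] at hg
  obtain ⟨l, hl, hgl⟩ := hg
  rw [List.eq_of_mem_replicate hl] at hgl
  simp only [List.mem_cons, List.not_mem_nil, or_false] at hgl
  rcases hgl with rfl | rfl | rfl | rfl | rfl | rfl <;> norm_num

/-! ### the weights -/

theorem brf_ne {N : ℕ} {v : ℂ} (hv : Adm N v) {j : ℕ} (hj : j < N) : brf v j ≠ 0 := by
  unfold brf
  rw [Finset.prod_ne_zero_iff]
  intro i hi
  rw [Finset.mem_range] at hi
  have h1 := hv.2 (i + 1) (by omega) (by omega)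
  push_cast at h1
  exact h1

theorem weight {N : ℕ} (hN : Odd N) {v : ℂ} (hv : Adm N v) (x : Fin N) :
    (datJ N v).c x * (datJ N v).d x = v ^ ((N : ℤ) - 1 - 2 * (x : ℕ)) := by
  show (kap N v (Fin.rev x : Fin N))⁻¹ * kap N v x = _
  have hx := x.2
  have h1 : ((Fin.rev x : Fin N) : ℕ) = N - 1 - x := by
    rw [Fin.val_rev]; omega
  have h2 : N - 1 - (N - 1 - (x : ℕ)) = x := by omega
  have hb1 := brf_ne hv (j := (x : ℕ)) hx
  have hb2 := brf_ne hv (j := N - 1 - (x : ℕ)) (by omega)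
  have hb3 := brf_ne hv (j := N - 1) (by omega)
  have hs : (-1 : ℂ) ^ (N - 1 - (x : ℕ)) = (-1) ^ (x : ℕ) := by
    obtain ⟨k, hk⟩ := hN
    have h3 : N - 1 - (x : ℕ) + x = 2 * k := by omega
    have h4 : (-1 : ℂ) ^ (N - 1 - (x : ℕ)) * (-1) ^ (x : ℕ) = 1 := by
      rw [← pow_add, h3, pow_mul]; norm_num
    have h5 : (-1 : ℂ) ^ (x : ℕ) * (-1) ^ (x : ℕ) = 1 := by
      rw [← mul_pow]; norm_num
    have h6 : (-1 : ℂ) ^ (x : ℕ) ≠ 0 := pow_ne_zero _ (by norm_num)
    exact mul_right_cancel₀ h6 (h4.trans h5.symm)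
  have hs0 : (-1 : ℂ) ^ (x : ℕ) ≠ 0 := pow_ne_zero _ (by norm_num)
  have hc : (((N - 1 - (x : ℕ) : ℕ) : ℤ)) = (N : ℤ) - 1 - (x : ℕ) := by omega
  unfold kap
  rw [h1, h2, hs, hc]
  have hz : v ^ ((x : ℤ) * ((N : ℤ) - 2 - (x : ℕ))) =
      v ^ (((N : ℤ) - 1 - (x : ℕ)) * ((N : ℤ) - 2 - ((N : ℤ) - 1 - (x : ℕ)))) *
        v ^ ((N : ℤ) - 1 - 2 * (x : ℕ)) := by
    rw [← zpow_add₀ hv.1]
    congr 1
    ring
  rw [hz]
  have hz0 : v ^ (((N : ℤ) - 1 - (x : ℕ)) * ((N : ℤ) - 2 - ((N : ℤ) - 1 - (x : ℕ)))) ≠ 0 :=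
    zpow_ne_zero _ hv.1
  field_simp

/-! ### closing -/

section
variable {N : ℕ} (T : Dat (Fin N))

theorem deaths (ρ : ℕ → Fin N) : Dl T 2 (Dl T 1 (Dl T 0 (fun _ => 1))) ρ =
    if ρ 3 = T.rev (ρ 2) then T.d (ρ 2) * (if ρ 4 = T.rev (ρ 1) then T.d (ρ 1) *
      (if ρ 5 = T.rev (ρ 0) then T.d (ρ 0) * 1 else 0) else 0) else 0 := rfl

theorem closeup (hrr : ∀ x, T.rev (T.rev x) = x)
    (M : Matrix (Fin 3 → Fin N) (Fin 3 → Fin N) ℂ) (c : ℂ) (σ : ℕ → Fin N) :
    Bl T 0 (Bl T 1 (Bl T 2 (c • Op M (Dl T 2 (Dl T 1 (Dl T 0 (fun _ => 1))))))) σ =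
      c * ∑ x0, ∑ x1, ∑ x2, (T.c x0 * T.d x0) * ((T.c x1 * T.d x1) * (T.c x2 * T.d x2)) *
        M ![x0, x1, x2] ![x0, x1, x2] := by
  have hinj : ∀ x y, T.rev x = T.rev y → x = y := by
    intro x y hxy
    rw [← hrr x, hxy, hrr]
  have key : ∀ x0 x1 x2, Op M (Dl T 2 (Dl T 1 (Dl T 0 (fun _ => 1))))
      (insS 2 x2 (T.rev x2) (insS 1 x1 (T.rev x1) (insS 0 x0 (T.rev x0) σ))) =
      M ![x0, x1, x2] ![x0, x1, x2] * (T.d x2 * (T.d x1 * T.d x0)) := by
    intro x0 x1 x2
    obtain ⟨τ, hτ⟩ : ∃ τ, τ = insS 2 x2 (T.rev x2) (insS 1 x1 (T.rev x1)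
      (insS 0 x0 (T.rev x0) σ)) := ⟨_, rfl⟩
    have hlab : lab τ = ![x0, x1, x2] := by
      rw [hτ]
      funext j
      fin_cases j <;> rfl
    have h3 : τ 3 = T.rev x2 := by rw [hτ]; rfl
    have h4 : τ 4 = T.rev x1 := by rw [hτ]; rfl
    have h5 : τ 5 = T.rev x0 := by rw [hτ]; rfl
    rw [← hτ]
    unfold Op
    rw [hlab, Finset.sum_eq_single ![x0, x1, x2]]
    · congr 1
      rw [deaths]
      have e3 : upd τ ![x0, x1, x2] 3 = T.rev x2 := h3
      have e4 : upd τ ![x0, x1, x2] 4 = T.rev x1 := h4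
      have e5 : upd τ ![x0, x1, x2] 5 = T.rev x0 := h5
      have e0 : upd τ ![x0, x1, x2] 0 = x0 := rfl
      have e1 : upd τ ![x0, x1, x2] 1 = x1 := rfl
      have e2 : upd τ ![x0, x1, x2] 2 = x2 := rfl
      rw [e0, e1, e2, e3, e4, e5, if_pos rfl, if_pos rfl, if_pos rfl, mul_one]
    · intro t _ ht
      have hz : Dl T 2 (Dl T 1 (Dl T 0 (fun _ => 1))) (upd τ t) = 0 := by
        rw [deaths]
        have e3 : upd τ t 3 = T.rev x2 := h3
        have e4 : upd τ t 4 = T.rev x1 := h4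
        have e5 : upd τ t 5 = T.rev x0 := h5
        have e0 : upd τ t 0 = t 0 := rfl
        have e1 : upd τ t 1 = t 1 := rfl
        have e2 : upd τ t 2 = t 2 := rfl
        rw [e0, e1, e2, e3, e4, e5]
        by_cases h2 : T.rev x2 = T.rev (t 2)
        · by_cases h1 : T.rev x1 = T.rev (t 1)
          · by_cases h0 : T.rev x0 = T.rev (t 0)
            · exfalso
              apply ht
              funext j
              fin_cases j
              · exact (hinj _ _ h0).symm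
              · exact (hinj _ _ h1).symm
              · exact (hinj _ _ h2).symm
            · rw [if_neg h0, mul_zero, ite_self, mul_zero, ite_self]
          · rw [if_neg h1, mul_zero, ite_self]
        · rw [if_neg h2]
      rw [hz, mul_zero]
    · intro hh
      exact absurd (Finset.mem_univ _) hh
  have hexp : ∀ G : F (Fin N), Bl T 0 (Bl T 1 (Bl T 2 G)) σ =
      ∑ x0, T.c x0 * ∑ x1, T.c x1 * ∑ x2, T.c x2 *
        G (insS 2 x2 (T.rev x2) (insS 1 x1 (T.rev x1) (insS 0 x0 (T.rev x0) σ))) := fun _ => rfl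
  rw [hexp]
  simp only [Pi.smul_apply, smul_eq_mul, key, Finset.mul_sum]
  refine Finset.sum_congr rfl fun x0 _ => Finset.sum_congr rfl fun x1 _ =>
    Finset.sum_congr rfl fun x2 _ => ?_
  ring

end

theorem tail_two {N : ℕ} (k : Fin N → ℂ) (M : Matrix (Fin 3 → Fin N) (Fin 3 → Fin N) ℂ) :
    ∑ x, k x * tail k 2 M x x =
      ∑ x0, ∑ x1, ∑ x2, k x0 * (k x1 * k x2) * M ![x0, x1, x2] ![x0, x1, x2] := by
  refine Finset.sum_congr rfl fun x _ => ?_
  have h1 : tail k 2 M x x = ∑ x1, ∑ x2, (k x1 * k x2) * M ![x, x1, x2] ![x, x1, x2] := by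
    unfold tail
    rw [← Equiv.sum_comp (finTwoArrowEquiv (Fin N)).symm, Fintype.sum_prod_type]
    refine Finset.sum_congr rfl fun a _ => Finset.sum_congr rfl fun b _ => ?_
    rw [Fin.prod_univ_two]
    rfl
  rw [h1]
  simp only [Finset.mul_sum]
  refine Finset.sum_congr rfl fun a _ => Finset.sum_congr rfl fun b _ => ?_
  ring

theorem plain_birth {p : Piece} {i : ℕ} (h : plain p = .birth i true) : ∃ b, p = .birth i b := by
  cases p <;> simp_all [plain]

theorem plain_death {p : Piece} {i : ℕ} (h : plain p = .death i) : p = .death i := by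
  cases p <;> simp_all [plain]

/-- **VV/13.** -/
theorem s_ring (h : S_TW) : Pool.Agent.N566.VV.S_RING := by
  intro N hN m ts D hD
  unfold ringW at hD
  rw [List.map_eq_append_iff] at hD
  obtain ⟨D1, D5, rfl, hD1, hD5⟩ := hD
  rw [List.map_eq_append_iff] at hD1
  obtain ⟨D2, D3, rfl, hD2, hD3⟩ := hD1
  rw [List.map_eq_append_iff] at hD3
  obtain ⟨D4, D6, rfl, hD4, hD6⟩ := hD3
  obtain ⟨b0, b1, b2, rfl⟩ : ∃ b0 b1 b2, D2 = [.birth 0 b0, .birth 1 b1, .birth 2 b2] := by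
    rcases D2 with _ | ⟨p0, _ | ⟨p1, _ | ⟨p2, _ | ⟨p3, D2⟩⟩⟩⟩
    · simp at hD2
    · simp at hD2
    · simp at hD2
    · simp only [List.map_cons, List.map_nil, List.cons.injEq, and_true] at hD2
      obtain ⟨b0, rfl⟩ := plain_birth hD2.1
      obtain ⟨b1, rfl⟩ := plain_birth hD2.2.1
      obtain ⟨b2, rfl⟩ := plain_birth hD2.2.2
      exact ⟨b0, b1, b2, rfl⟩
    · simp at hD2
  obtain rfl : D5 = [.death 2, .death 1, .death 0] := by
    rcases D5 with _ | ⟨p0, _ | ⟨p1, _ | ⟨p2, _ | ⟨p3, D2⟩⟩⟩⟩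
    · simp at hD5
    · simp at hD5
    · simp at hD5
    · simp only [List.map_cons, List.map_nil, List.cons.injEq, and_true] at hD5
      rw [plain_death hD5.1, plain_death hD5.2.1, plain_death hD5.2.2]
    · simp at hD5
  obtain ⟨e1, he1⟩ := mid1 N (fullTwists m) (fullTwists_lt m) D4
    (run [.birth 0 b0, .birth 1 b1, .birth 2 b2] Front.empty) hD4
  obtain ⟨e2, he2⟩ := mid2 h N hN ts D6
    (run D4 (run [.birth 0 b0, .birth 1 b1, .birth 2 b2] Front.empty)) hD6
  refine ⟨e1 + e2, fun v hv σ => ?_⟩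
  have hval : val (datJ N v) ([.birth 0 b0, .birth 1 b1, .birth 2 b2] ++ (D4 ++ D6) ++
      [.death 2, .death 1, .death 0]) σ =
      Bl (datJ N v) 0 (Bl (datJ N v) 1 (Bl (datJ N v) 2 (v ^ (e1 + e2) •
        Op (rep (crossP N v) (crossN N v) 3 (fullTwists m) *
          (ts.map fun p => gen (tangle N v p.1) 3 0 * gen (tangle N v p.2) 3 1).prod)
        (Dl (datJ N v) 2 (Dl (datJ N v) 1 (Dl (datJ N v) 0 (fun _ => 1))))))) σ := by
    unfold Pool.Agent.N566.VV.val
    rw [opD_append, opD_append, opD_append, he2 v hv, he1 v hv, Op_smul, smul_smul,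
      ← zpow_add₀ hv.1, ← Op_mul]
    rfl
  rw [hval, closeup (datJ N v) (fun x => Fin.rev_rev x)]
  congr 1
  unfold ringM
  rw [tail_two]
  refine Finset.sum_congr rfl fun x0 _ => Finset.sum_congr rfl fun x1 _ =>
    Finset.sum_congr rfl fun x2 _ => ?_
  rw [weight hN hv, weight hN hv, weight hN hv]

end Pool.Agent.N768.VV
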